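import Pool.Agent.H.MP_86e2e0_an.D

namespace Pool.Agent.Results.MP_86e2e0_an.Yes

open Pool.Agent.H.MP_86e2e0_an

theorem result : ∃ (A : Type) (_ : NonUnitalCStarAlgebra A) (_ : PartialOrder A)
    (_ : StarOrderedRing A),
    (∀ J : TwoSidedIdeal A, IsClosed (J : Set A) → J = ⊥ ∨ J = ⊤) ∧
    TopologicalSpace.SeparableSpace A ∧
    (¬ ∃ e : A, ∀ a, e * a = a ∧ a * e = a) ∧
    ∃ I : TwoSidedIdeal (DoubleCentralizer ℂ A), I ≠ ⊤ ∧ NonMeagre I := by
  letI : PartialOrder AA := CStarAlgebra.spectralOrder AA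
  haveI : StarOrderedRing AA := CStarAlgebra.spectralOrderedRing AA
  exact ⟨AA, inferInstance, inferInstance, inferInstance, simple_AA, sep_AA,
    abstract tau tau_tr (fun a => t0_zero a.2) tau_big⟩

end Pool.Agent.Results.MP_86e2e0_an.Yes
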